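import Pool.Agent.H38.PWS.Stmts

/-!
# Board `pws`, row COL
-/

set_option autoImplicit false

namespace Pool.PWS

open Finset

theorem COL : COLStmt := by
  intro U r hr
  have hprod : (∏ p ∈ U.filter (fun p => p < r p), p) * (∏ p ∈ U.filter (fun p => ¬ p < r p), p) =
      ∏ p ∈ U, p := Finset.prod_filter_mul_prod_filter_not U _ _
  rcases le_total (∏ p ∈ U.filter (fun p => p < r p), p)
    (∏ p ∈ U.filter (fun p => ¬ p < r p), p) with h | h
  · refine ⟨U.filter (fun p => p < r p), Finset.filter_subset _ _, ?_, ?_⟩
    · rw [← hprod, sq]
      exact Nat.mul_le_mul_left _ h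
    · intro P hQ hout hstep p
      induction p using Nat.strong_induction_on with
      | _ p ih =>
        intro hp
        by_cases hlt : p < r p
        · exact hQ p (Finset.mem_filter.2 ⟨hp, hlt⟩)
        · have hlt2 : r p < p := lt_of_le_of_ne (not_lt.1 hlt) (hr p hp)
          apply hstep p hp
          by_cases hrU : r p ∈ U
          · exact ih (r p) hlt2 hrU
          · exact hout p hp hrU
  · refine ⟨U.filter (fun p => ¬ p < r p), Finset.filter_subset _ _, ?_, ?_⟩
    · rw [← hprod, sq]
      exact Nat.mul_le_mul_right _ h
    · intro P hQ hout hstep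
      have key : ∀ k p : ℕ, p ∈ U → U.sup id - p = k → P p := by
        intro k
        induction k using Nat.strong_induction_on with
        | _ k ih =>
          intro p hp hk
          by_cases hlt : p < r p
          · apply hstep p hp
            by_cases hrU : r p ∈ U
            · have h1 : r p ≤ U.sup id := Finset.le_sup (f := id) hrU
              exact ih (U.sup id - r p) (by omega) (r p) hrU rfl
            · exact hout p hp hrU
          · exact hQ p (Finset.mem_filter.2 ⟨hp, hlt⟩)
      exact fun p hp => key _ p hp rfl

end Pool.PWS
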